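import Mathlib

/-!
# 2-balanced periodic words with prescribed letter counts (MP_85ac7c_co)

Letters are sorted by decreasing demand.  The word is built from the smallest demand to the largest
one: a word on the letters `k+1, …, n` (on its own time axis `ℤ`) is inserted into the time axis of
the letters `k, …, n` through a strictly increasing map `p = round ∘ y`, `y j = (2+β) j - G j`,
where `G` is a smoothed counting function of the elements of the previous level.
-/

set_option autoImplicit false

open Finset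

namespace Pool.Agent.H894R2.Bal

/-- The data at one level. -/
structure Good (n : ℕ) (d : Fin (n + 1) → ℤ) (w : ℤ → Fin (n + 1)) (G : ℤ → ℚ)
    (E : Fin (n + 1) → ℤ → ℤ) : Prop where
  wper : ∀ j, w (j + ∑ i, d i) = w j
  gper : ∀ j, G (j + ∑ i, d i) = G j + (((∑ i, d i) - d 0 : ℤ) : ℚ)
  eper : ∀ i j, E i (j + ∑ i, d i) = E i j + d i
  estep : ∀ i j, E i j = E i (j - 1) + if w j = i then 1 else 0
  glip : ∀ j, G (j + 1) ≤ G j + 1
  gcomb : ∀ j j' m : ℤ, G (j + m) - G j ≤ G (j' + m) - G j' + 1
  main : ∀ i (a b a' b' : ℤ), w a = i → w b = i → w a' = i → w b' = i →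
    E i b' - E i a' + 1 ≤ E i b - E i a →
      b' - a' ≤ b - a ∧ ((b' : ℚ) - G b') - ((a' : ℚ) - G a') + 1 ≤ ((b : ℚ) - G b) - ((a : ℚ) - G a)

lemma spacing_q {y : ℤ → ℚ} (h : ∀ j, y j + 1 ≤ y (j + 1)) (a b : ℤ) (hab : a ≤ b) :
    y a + ((b : ℚ) - a) ≤ y b := by
  induction b, hab using Int.leInduction with
  | base => simp
  | succ b hb ih =>
    have := h b
    push_cast
    linarith

lemma spacing_z {p : ℤ → ℤ} (h : ∀ j, p j + 1 ≤ p (j + 1)) (a b : ℤ) (hab : a ≤ b) :
    p a + (b - a) ≤ p b := by
  induction b, hab using Int.leInduction with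
  | base => simp
  | succ b hb ih =>
    have := h b
    linarith

lemma exists_N {p : ℤ → ℤ} (h : ∀ j, p j + 1 ≤ p (j + 1)) (u : ℤ) :
    ∃ j, p j ≤ u ∧ u < p (j + 1) := by
  have hb : ∃ b : ℤ, ∀ z : ℤ, p z ≤ u → z ≤ b := by
    refine ⟨max 0 (u - p 0), fun z hz => ?_⟩
    rcases le_or_gt z 0 with h0 | h0
    · exact le_trans h0 (le_max_left _ _)
    · have := spacing_z h 0 z h0.le
      exact le_trans (by linarith) (le_max_right _ _)
  have hi : ∃ z : ℤ, p z ≤ u := by
    refine ⟨min 0 (u - p 0), ?_⟩
    have h1 := spacing_z h (min 0 (u - p 0)) 0 (min_le_left _ _)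
    have h2 : min 0 (u - p 0) ≤ u - p 0 := min_le_right _ _
    linarith
  obtain ⟨j, hj, hj2⟩ := Int.exists_greatest_of_bdd hb hi
  refine ⟨j, hj, ?_⟩
  by_contra hc
  have := hj2 (j + 1) (not_lt.mp hc)
  linarith

/-- One step of the construction. -/
theorem step {n : ℕ} {d : Fin (n + 2) → ℤ} (hpos : ∀ i, 0 < d i) (hd : d 1 ≤ d 0)
    {w : ℤ → Fin (n + 1)} {G : ℤ → ℚ} {E : Fin (n + 1) → ℤ → ℤ}
    (hG : Good n (fun i => d i.succ) w G E) :
    ∃ w' G' E', Good (n + 1) d w' G' E' := by
  classical
  set D : ℤ := ∑ i : Fin (n + 1), d i.succ with hD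
  have hDpos : 0 < D := Finset.sum_pos (fun i _ => hpos _) Finset.univ_nonempty
  have hsum : ∑ i, d i = d 0 + D := by rw [Fin.sum_univ_succ]
  have hDq : (0 : ℚ) < D := by exact_mod_cast hDpos
  set β : ℚ := ((d 0 : ℚ) - d 1) / D with hβ
  have hβ0 : 0 ≤ β := by
    apply div_nonneg _ hDq.le
    have : (d 1 : ℚ) ≤ d 0 := by exact_mod_cast hd
    linarith
  set y : ℤ → ℚ := fun j => (2 + β) * j - G j with hy
  have yv : ∀ j, y j = (2 + β) * j - G j := fun j => rfl
  have ystep : ∀ j, y j + 1 ≤ y (j + 1) := by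
    intro j
    have := hG.glip j
    rw [yv, yv]
    push_cast
    nlinarith
  have ysp := spacing_q ystep
  have yper : ∀ j, y (j + D) = y j + ((d 0 + D : ℤ) : ℚ) := by
    intro j
    have h1 := hG.gper j
    have h2 : β * D = (d 0 : ℚ) - d 1 := by
      rw [hβ]; field_simp
    rw [yv, yv, h1]
    push_cast
    have h3 : ((d (Fin.succ 0) : ℤ) : ℚ) = d 1 := rfl
    have h4 : ((∑ i : Fin (n + 1), (d i.succ : ℚ))) = (D : ℚ) := by rw [hD]; push_cast; rfl
    rw [h4, h3]
    linear_combination h2
  have ycomb : ∀ l l' q : ℤ, y (l' + q) - y l' ≤ y (l + q) - y l + 1 := by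
    intro l l' q
    have := hG.gcomb l l' q
    rw [yv, yv, yv, yv]
    push_cast
    linarith
  set p : ℤ → ℤ := fun j => ⌊y j + 1 / 2⌋ with hp
  have p1 : ∀ j, (p j : ℚ) ≤ y j + 1 / 2 := fun j => Int.floor_le _
  have p2 : ∀ j, y j + 1 / 2 < p j + 1 := fun j => Int.lt_floor_add_one _
  have pstep : ∀ j, p j + 1 ≤ p (j + 1) := by
    intro j
    have h1 := ystep j
    have h2 := p1 j
    apply Int.le_floor.mpr
    push_cast
    linarith
  have psp := spacing_z pstep
  have pmono : StrictMono p := by
    intro a b hab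
    have := psp a b hab.le
    linarith
  have pper : ∀ j, p (j + D) = p j + (d 0 + D) := by
    intro j
    have h1 := yper j
    have h2 : y (j + D) + 1 / 2 = (y j + 1 / 2) + ((d 0 + D : ℤ) : ℚ) := by rw [h1]; ring
    simp only [hp]
    rw [h2, Int.floor_add_intCast]
  have pcomb : ∀ l l' m : ℤ, p (l + m) - p l ≤ p (l' + m) - p l' + 2 := by
    intro l l' m
    have h1 := p1 (l + m)
    have h2 := p2 l
    have h3 := p2 (l' + m)
    have h4 := p1 l'
    have h5 := ycomb l' l m
    have h6 : ((p (l + m) - p l : ℤ) : ℚ) < ((p (l' + m) - p l' + 3 : ℤ) : ℚ) := by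
      push_cast
      linarith
    have h7 : p (l + m) - p l < p (l' + m) - p l' + 3 := by exact_mod_cast h6
    linarith
  choose N hN1 hN2 using exists_N pstep
  have Nuniq : ∀ u j, p j ≤ u → u < p (j + 1) → N u = j := by
    intro u j h1 h2
    have h3 : N u < j + 1 := pmono.lt_iff_lt.mp (lt_of_le_of_lt (hN1 u) h2)
    have h4 : j < N u + 1 := pmono.lt_iff_lt.mp (lt_of_le_of_lt h1 (hN2 u))
    omega
  have Np : ∀ j, N (p j) = j := fun j => Nuniq _ _ le_rfl (by have := pstep j; omega)
  have Nper : ∀ u, N (u + (d 0 + D)) = N u + D := by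
    intro u
    apply Nuniq
    · rw [pper]; have := hN1 u; omega
    · have : N u + D + 1 = N u + 1 + D := by ring
      rw [this, pper]
      have := hN2 u; omega
  have Npred_mem : ∀ u, p (N u) = u → N (u - 1) = N u - 1 := by
    intro u hu
    apply Nuniq
    · have := pstep (N u - 1)
      rw [sub_add_cancel] at this
      omega
    · rw [sub_add_cancel]; omega
  have Npred_non : ∀ u, p (N u) ≠ u → N (u - 1) = N u := by
    intro u hu
    apply Nuniq
    · have := hN1 u
      omega
    · have := hN2 u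
      omega
  -- the smoothed counting function
  set G' : ℤ → ℚ := fun u => if p (N u) = u then (N u : ℚ) - 1 / 2 + u - y (N u) else (N u : ℚ)
    with hG'
  have G'mem : ∀ u, p (N u) = u → G' u = (N u : ℚ) - 1 / 2 + u - y (N u) := by
    intro u hu
    simp only [hG']
    rw [if_pos hu]
  have G'non : ∀ u, p (N u) ≠ u → G' u = (N u : ℚ) := by
    intro u hu
    simp only [hG']
    rw [if_neg hu]
  have hU : ∀ u l : ℤ, G' u ≤ max ((l : ℚ) - 1) ((l : ℚ) - 1 / 2 + u - y l) := by
    intro u l
    by_cases hu : p (N u) = u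
    · rw [G'mem u hu]
      rcases le_or_gt l (N u) with h | h
      · apply le_max_of_le_right
        have := ysp l (N u) h
        linarith
      · apply le_max_of_le_left
        have h1 := p1 (N u)
        rw [hu] at h1
        have h2 : ((N u : ℚ)) + 1 ≤ l := by exact_mod_cast h
        linarith
    · rw [G'non u hu]
      rcases le_or_gt l (N u) with h | h
      · apply le_max_of_le_right
        have := ysp l (N u) h
        have h1 : p (N u) + 1 ≤ u := by
          have := hN1 u
          omega
        have h2 : ((p (N u) : ℚ)) + 1 ≤ u := by exact_mod_cast h1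
        have h3 := p2 (N u)
        linarith
      · apply le_max_of_le_left
        have h2 : ((N u : ℚ)) + 1 ≤ l := by exact_mod_cast h
        linarith
  have hL : ∀ u l : ℤ, min (l : ℚ) ((l : ℚ) - 1 / 2 + u - y l) ≤ G' u := by
    intro u l
    by_cases hu : p (N u) = u
    · rw [G'mem u hu]
      rcases lt_or_ge l (N u) with h | h
      · apply min_le_of_left_le
        have h1 := p2 (N u)
        rw [hu] at h1
        have h2 : (l : ℚ) + 1 ≤ N u := by exact_mod_cast h
        linarith
      · apply min_le_of_right_le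
        have := ysp (N u) l h
        linarith
    · rw [G'non u hu]
      rcases le_or_gt l (N u) with h | h
      · apply min_le_of_left_le
        exact_mod_cast h
      · apply min_le_of_right_le
        have := ysp (N u + 1) l h
        have h1 : u + 1 ≤ p (N u + 1) := hN2 u
        have h2 : ((u : ℚ)) + 1 ≤ p (N u + 1) := by exact_mod_cast h1
        have h3 := p1 (N u + 1)
        push_cast at *
        linarith
  -- lower/upper estimates at a point
  have estL : ∀ u : ℤ, ∃ l : ℤ, (l : ℚ) - 1 ≤ G' u ∧ (l : ℚ) - 1 / 2 + u - y l ≤ G' u := by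
    intro u
    refine ⟨⌊G' u⌋ + 1, ?_, ?_⟩
    · push_cast
      have := Int.floor_le (G' u)
      linarith
    · have h1 := hL u (⌊G' u⌋ + 1)
      have h2 := Int.lt_floor_add_one (G' u)
      rcases min_le_iff.mp h1 with h | h
      · push_cast at h
        linarith
      · exact h
  have estU : ∀ u : ℤ, ∃ l : ℤ, G' u ≤ (l : ℚ) ∧ G' u ≤ (l : ℚ) - 1 / 2 + u - y l ∧
      (l : ℚ) - 1 < G' u := by
    intro u
    refine ⟨⌈G' u⌉, Int.le_ceil _, ?_, ?_⟩
    · have h1 := hU u ⌈G' u⌉
      have h2 := Int.ceil_lt_add_one (G' u)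
      rcases le_max_iff.mp h1 with h | h
      · linarith
      · exact h
    · have h2 := Int.ceil_lt_add_one (G' u)
      linarith
  have g'comb : ∀ j j' m : ℤ, G' (j + m) - G' j ≤ G' (j' + m) - G' j' + 1 := by
    intro x x' m
    obtain ⟨l, hl1, hl2⟩ := estL x
    obtain ⟨s, hs1, hs2, -⟩ := estU (x + m)
    obtain ⟨l', hl1', hl2', -⟩ := estU x'
    obtain ⟨s', hs1', hs2'⟩ := estL (x' + m)
    push_cast at hs2 hs2'
    rcases le_or_gt (s' - l') (s - l) with hq | hq
    · have h1 := ysp s' (l' + (s - l)) (by omega)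
      have h2 := ycomb l l' (s - l)
      rw [show l + (s - l) = s by ring] at h2
      push_cast at h1
      linarith
    · have h3 : ((s : ℚ) - l) + 1 ≤ (s' : ℚ) - l' := by exact_mod_cast hq
      linarith
  have g'lip : ∀ j, G' (j + 1) ≤ G' j + 1 := by
    intro x
    obtain ⟨l, hl1, hl2⟩ := estL x
    have h1 := hU (x + 1) l
    rcases le_max_iff.mp h1 with h | h
    · linarith
    · push_cast at h
      linarith
  -- the word
  refine ⟨fun u => if p (N u) = u then (w (N u)).succ else 0, G',
    Fin.cons (fun u => u - N u) (fun i u => E i (N u)), ?_, ?_, ?_, ?_, g'lip, g'comb, ?_⟩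
  · intro u
    rw [hsum, Nper, pper]
    by_cases hu : p (N u) = u
    · rw [if_pos hu, if_pos (by omega)]
      have := hG.wper (N u)
      rw [← hD] at this
      rw [this]
    · rw [if_neg hu, if_neg (by omega)]
  · intro u
    rw [hsum]
    have e0 : (d 0 + D - d 0 : ℤ) = D := by ring
    rw [e0]
    by_cases hu : p (N u) = u
    · rw [G'mem u hu, G'mem _ (by rw [Nper, pper]; omega), Nper, yper]
      push_cast
      ring
    · rw [G'non u hu, G'non _ (by rw [Nper, pper]; omega), Nper]
      push_cast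
      ring
  · intro i u
    rw [hsum]
    refine Fin.cases ?_ (fun i => ?_) i
    · simp only [Fin.cons_zero]
      rw [Nper]
      ring
    · simp only [Fin.cons_succ]
      rw [Nper]
      have := hG.eper i (N u)
      rw [← hD] at this
      exact this
  · intro i u
    refine Fin.cases ?_ (fun i => ?_) i
    · simp only [Fin.cons_zero]
      by_cases hu : p (N u) = u
      · rw [if_pos hu, Npred_mem u hu, if_neg (Fin.succ_ne_zero _)]
        ring
      · rw [if_neg hu, Npred_non u hu, if_pos rfl]
        ring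
    · simp only [Fin.cons_succ]
      by_cases hu : p (N u) = u
      · rw [if_pos hu, Npred_mem u hu, hG.estep i (N u)]
        simp only [Fin.succ_inj]
      · rw [if_neg hu, Npred_non u hu, if_neg (Fin.succ_ne_zero _).symm]
        ring
  · intro i a b a' b'
    refine Fin.cases ?_ (fun i => ?_) i
    · intro ha hb ha' hb'
      have non : ∀ u, (if p (N u) = u then (w (N u)).succ else 0) = 0 → p (N u) ≠ u := by
        intro u hu hc
        rw [if_pos hc] at hu
        exact Fin.succ_ne_zero _ hu
      have na := non a ha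
      have nb := non b hb
      have na' := non a' ha'
      have nb' := non b' hb'
      simp only [Fin.cons_zero]
      intro hE
      rw [G'non a na, G'non b nb, G'non a' na', G'non b' nb']
      refine ⟨?_, ?_⟩
      · by_contra hc
        have h1 := hN1 a
        have h2 := hN2 b
        have h3 := hN2 a'
        have h4 := hN1 b'
        have h5 := pcomb (N a) (N a' + 1) (N b + 1 - N a)
        rw [show N a + (N b + 1 - N a) = N b + 1 by ring] at h5
        have h6 := psp (N a' + 1 + (N b + 1 - N a)) (N b') (by omega)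
        omega
      · have : ((b' - N b' - (a' - N a') + 1 : ℤ) : ℚ) ≤ ((b - N b - (a - N a) : ℤ) : ℚ) := by
          exact_mod_cast hE
        push_cast at this
        linarith
    · intro ha hb ha' hb'
      have mem : ∀ u, (if p (N u) = u then (w (N u)).succ else 0) = i.succ →
          p (N u) = u ∧ w (N u) = i := by
        intro u hu
        by_cases hc : p (N u) = u
        · rw [if_pos hc] at hu
          exact ⟨hc, Fin.succ_injective _ hu⟩
        · rw [if_neg hc] at hu
          exact absurd hu.symm (Fin.succ_ne_zero _)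
      obtain ⟨ma, wa⟩ := mem a ha
      obtain ⟨mb, wb⟩ := mem b hb
      obtain ⟨ma', wa'⟩ := mem a' ha'
      obtain ⟨mb', wb'⟩ := mem b' hb'
      simp only [Fin.cons_succ]
      intro hE
      obtain ⟨h1, h2⟩ := hG.main i (N a) (N b) (N a') (N b') wa wb wa' wb' hE
      rw [G'mem a ma, G'mem b mb, G'mem a' ma', G'mem b' mb']
      have h1q : ((N b' : ℚ) - N a') ≤ (N b : ℚ) - N a := by exact_mod_cast h1
      have h3 : β * ((N b' : ℚ) - N a') ≤ β * ((N b : ℚ) - N a) :=
        mul_le_mul_of_nonneg_left h1q hβ0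
      have hya := yv (N a)
      have hyb := yv (N b)
      have hya' := yv (N a')
      have hyb' := yv (N b')
      refine ⟨?_, ?_⟩
      · have k1 := p2 (N b)
        have k2 := p1 (N a)
        have k3 := p1 (N b')
        have k4 := p2 (N a')
        rw [mb] at k1
        rw [ma] at k2
        rw [mb'] at k3
        rw [ma'] at k4
        have k5 : ((b' - a' : ℤ) : ℚ) < ((b - a + 1 : ℤ) : ℚ) := by
          push_cast
          linarith
        have k6 : b' - a' < b - a + 1 := by exact_mod_cast k5
        omega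
      · linarith

/-- Base of the construction: one letter. -/
theorem base (d : Fin 1 → ℤ) : Good 0 d (fun _ => 0) (fun _ => 0) (fun _ j => j) := by
  refine ⟨fun _ => rfl, fun j => ?_, fun i j => ?_, fun i j => ?_, fun j => by norm_num,
    fun _ _ _ => by norm_num, ?_⟩
  · simp
  · rw [Fin.sum_univ_one]
    congr 1
    congr 1
    exact Subsingleton.elim _ _
  · rw [if_pos (show (0 : Fin 1) = i from Subsingleton.elim _ _)]
    ring
  · intro i a b a' b' _ _ _ _ h
    refine ⟨by omega, ?_⟩
    have : ((b' - a' + 1 : ℤ) : ℚ) ≤ ((b - a : ℤ) : ℚ) := by exact_mod_cast h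
    push_cast at this
    linarith

theorem exists_good : ∀ (n : ℕ) (d : Fin (n + 1) → ℤ), (∀ i, 0 < d i) → Antitone d →
    ∃ w G E, Good n d w G E := by
  intro n
  induction n with
  | zero => exact fun d _ _ => ⟨_, _, _, base d⟩
  | succ n ih =>
    intro d hpos hanti
    obtain ⟨w, G, E, h⟩ := ih (fun i => d i.succ) (fun i => hpos _)
      (fun i j hij => hanti (Fin.succ_le_succ_iff.mpr hij))
    exact step hpos (hanti (Fin.zero_le _)) h

/-! ### Balance -/

section Balance

variable {n : ℕ} {d : Fin (n + 1) → ℤ} {w : ℤ → Fin (n + 1)} {G : ℤ → ℚ}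
    {E : Fin (n + 1) → ℤ → ℤ}

/-- mono of counts -/
lemma Good.Emono (h : Good n d w G E) (i : Fin (n + 1)) : Monotone (E i) := by
  apply monotone_int_of_le_succ
  intro j
  have := h.estep i (j + 1)
  rw [add_sub_cancel_right] at this
  rw [this]
  split_ifs <;> omega

lemma Good.Emul (h : Good n d w G E) (i : Fin (n + 1)) (j : ℤ) (m : ℕ) :
    E i (j + m * ∑ i, d i) = E i j + m * d i := by
  induction m with
  | zero => simp
  | succ m ih =>
    have := h.eper i (j + m * ∑ i, d i)
    rw [ih] at this
    push_cast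
    rw [show j + ((m : ℤ) + 1) * ∑ i, d i = j + m * ∑ i, d i + ∑ i, d i by ring, this]
    ring

/-- next occurrence -/
lemma Good.next (h : Good n d w G E) (hpos : ∀ i, 0 < d i) (i : Fin (n + 1)) (x : ℤ) :
    ∃ b, x < b ∧ w b = i ∧ E i b = E i x + 1 := by
  have hex : ∃ m : ℕ, E i x < E i (x + m) := by
    have hD : 0 < ∑ i, d i := Finset.sum_pos (fun i _ => hpos _) Finset.univ_nonempty
    refine ⟨(∑ i, d i).toNat, ?_⟩
    rw [Int.toNat_of_nonneg hD.le, h.eper]
    have := hpos i
    omega
  classical
  set m := Nat.find hex with hm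
  have h1 : E i x < E i (x + m) := Nat.find_spec hex
  have hm0 : m ≠ 0 := by
    intro h0
    rw [h0] at h1
    simp at h1
  obtain ⟨k, hk⟩ := Nat.exists_eq_succ_of_ne_zero hm0
  have h2 : ¬ E i x < E i (x + k) := Nat.find_min hex (by rw [← hm, hk]; exact Nat.lt_succ_self k)
  have h3 : E i (x + k) = E i x := le_antisymm (not_lt.mp h2) (h.Emono i (by omega))
  have h4 := h.estep i (x + m)
  rw [show x + (m : ℤ) - 1 = x + k by rw [hk]; push_cast; ring, h3] at h4
  have h5 : w (x + m) = i := by
    by_contra hc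
    rw [if_neg hc] at h4
    omega
  rw [if_pos h5] at h4
  exact ⟨x + m, by omega, h5, h4⟩

/-- last occurrence -/
lemma Good.prev (h : Good n d w G E) (hpos : ∀ i, 0 < d i) (i : Fin (n + 1)) (x : ℤ) :
    ∃ a, a ≤ x ∧ w a = i ∧ E i a = E i x := by
  have hex : ∃ m : ℕ, E i (x - m - 1) < E i x := by
    have hD : 0 < ∑ i, d i := Finset.sum_pos (fun i _ => hpos _) Finset.univ_nonempty
    refine ⟨(∑ i, d i).toNat, ?_⟩
    rw [Int.toNat_of_nonneg hD.le]
    have h1 := h.eper i (x - ∑ i, d i)
    rw [sub_add_cancel] at h1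
    have h2 := hpos i
    have h3 := h.Emono i (show x - ∑ i, d i - 1 ≤ x - ∑ i, d i by omega)
    omega
  classical
  set m := Nat.find hex with hm
  have h1 : E i (x - m - 1) < E i x := Nat.find_spec hex
  have h3 : E i (x - m) = E i x := by
    rcases Nat.eq_zero_or_pos m with h0 | h0
    · rw [h0]; simp
    · obtain ⟨k, hk⟩ := Nat.exists_eq_succ_of_ne_zero h0.ne'
      have h2 : ¬ E i (x - k - 1) < E i x :=
        Nat.find_min hex (by rw [← hm, hk]; exact Nat.lt_succ_self k)
      rw [show x - (m : ℤ) = x - k - 1 by rw [hk]; push_cast; ring]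
      exact le_antisymm (h.Emono i (by omega)) (not_lt.mp h2)
  have h4 := h.estep i (x - m)
  have h5 : w (x - m) = i := by
    by_contra hc
    rw [if_neg hc] at h4
    omega
  exact ⟨x - m, by omega, h5, h3⟩

/-- Every letter is 2-balanced. -/
theorem Good.balanced (h : Good n d w G E) (hpos : ∀ i, 0 < d i) (i : Fin (n + 1)) (s t L : ℤ)
    (hL : 0 ≤ L) : (E i (s + L) - E i s) - (E i (t + L) - E i t) ≤ 2 := by
  by_contra hc
  have hmt := h.Emono i (show t ≤ t + L by omega)
  obtain ⟨a, ha1, ha2, ha3⟩ := h.next hpos i s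
  obtain ⟨b, hb1, hb2, hb3⟩ := h.prev hpos i (s + L)
  obtain ⟨a', ha1', ha2', ha3'⟩ := h.prev hpos i t
  obtain ⟨b', hb1', hb2', hb3'⟩ := h.next hpos i (t + L)
  have := (h.main i a b a' b' ha2 hb2 ha2' hb2' (by omega)).1
  omega

/-- counts in windows of natural numbers -/
lemma Good.card (h : Good n d w G E) (i : Fin (n + 1)) (p L : ℕ) :
    ((((Finset.range L).filter (fun k : ℕ => w ((p + k : ℕ) : ℤ) = i)).card : ℕ) : ℤ) =
      E i ((p : ℤ) - 1 + L) - E i ((p : ℤ) - 1) := by
  induction L with
  | zero => simp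
  | succ L ih =>
    rw [Finset.range_add_one, Finset.filter_insert]
    have h1 := h.estep i ((p : ℤ) - 1 + (L + 1 : ℕ))
    rw [show (p : ℤ) - 1 + (L + 1 : ℕ) - 1 = (p : ℤ) - 1 + L by push_cast; ring,
      show (p : ℤ) - 1 + (L + 1 : ℕ) = ((p + L : ℕ) : ℤ) by push_cast; ring] at h1
    rw [show (p : ℤ) - 1 + (L + 1 : ℕ) = ((p + L : ℕ) : ℤ) by push_cast; ring, h1]
    split_ifs with hw
    · rw [Finset.card_insert_of_notMem (by simp)]
      push_cast
      push_cast at ih
      rw [ih]
      ring
    · rw [ih]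
      ring

end Balance

/-- The existence theorem in the form of the problem file. -/
theorem exists_word (n : ℕ) (hn : 0 < n) (d : Fin n → ℕ) (hd : ∀ i, 0 < d i) :
      ∃ w : ℕ → Fin n,
        Function.Periodic w (∑ j, d j) ∧
        (∀ i : Fin n, ((Finset.range (∑ j, d j)).filter (fun k => w k = i)).card = d i) ∧
        ∀ p q L : ℕ, ∀ i : Fin n,
          (((Finset.range L).filter (fun k => w (p + k) = i)).card : ℤ)
            - (((Finset.range L).filter (fun k => w (q + k) = i)).card : ℤ) ≤ 2 := by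
  obtain ⟨n, rfl⟩ := Nat.exists_eq_succ_of_ne_zero hn.ne'
  set σ : Equiv.Perm (Fin (n + 1)) := Tuple.sort (fun i => -(d i : ℤ)) with hσ
  have hmono : Monotone ((fun i => -(d i : ℤ)) ∘ σ) := Tuple.monotone_sort _
  set e : Fin (n + 1) → ℤ := fun i => (d (σ i) : ℤ) with he
  have hanti : Antitone e := by
    intro i j hij
    have := hmono hij
    simp only [Function.comp] at this
    simp only [he]
    omega
  have hpos : ∀ i, 0 < e i := fun i => by
    have := hd (σ i)
    simp only [he]
    omega
  obtain ⟨w, G, E, h⟩ := exists_good n e hpos hanti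
  have hsum : ∑ i, e i = ((∑ j, d j : ℕ) : ℤ) := by
    rw [Nat.cast_sum]
    exact Equiv.sum_comp σ (fun i => (d i : ℤ))
  have hcard : ∀ (i : Fin (n + 1)) (p L : ℕ),
      (((Finset.range L).filter (fun k : ℕ => σ (w ((p + k : ℕ) : ℤ)) = i)).card : ℤ) =
        E (σ.symm i) ((p : ℤ) - 1 + L) - E (σ.symm i) ((p : ℤ) - 1) := by
    intro i p L
    rw [← h.card]
    congr 2
    apply Finset.filter_congr
    intro k _
    exact (Equiv.eq_symm_apply σ).symm
  refine ⟨fun k => σ (w (k : ℤ)), ?_, ?_, ?_⟩
  · intro k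
    simp only
    have := h.wper k
    rw [hsum] at this
    push_cast at this ⊢
    rw [this]
  · intro i
    have h1 := hcard i 0 (∑ j, d j)
    have h2 := h.eper (σ.symm i) ((0 : ℕ) - 1 : ℤ)
    rw [hsum] at h2
    rw [h2] at h1
    simp only [zero_add] at h1
    have h3 : e (σ.symm i) = d i := by simp [he]
    rw [h3] at h1
    have h4 : (((Finset.range (∑ j, d j)).filter (fun k : ℕ => σ (w (k : ℤ)) = i)).card : ℤ)
        = d i := by
      rw [h1]; ring
    exact_mod_cast h4
  · intro p q L i
    rw [hcard i p L, hcard i q L]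
    exact h.balanced hpos _ _ _ _ (by positivity)

end Pool.Agent.H894R2.Bal
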