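import Mathlib
import Pool.Agent.H554R2.Cnf.SatMain

/-!
# 3-DNF tautologies on nondeterministic branching programs

The reduction from the evaluation of a CNF `F` to the tautology problem for 3-DNFs in which only
`n` bits depend on the point: the DNF is a tautology if and only if the point satisfies `F`.
(`embed` is the lemma of helper89 in `Cnf/ReduceE.lean`, where it is private.)
-/

set_option autoImplicit false
set_option linter.style.haveILetI false

open Finset

namespace Pool.Agent.H894R2.Taut

open Pool.Agent.H554R2.Sem Pool.Agent.H554R2.Cnf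

/-- The disjunction of the `M` terms of three literals given by `w` is a tautology. -/
def Taut3 {M ℓ : ℕ} (w : Idx M ℓ → Bool) : Prop :=
  ∀ α : (Fin ℓ → Bool) → Bool, ∃ c : Fin M, ∀ p : Fin 3,
    α (fun j => w (c, p, some j)) = w (c, p, none)

/-- A 3-DNF is a tautology if and only if the 3-CNF with the opposite literals is
unsatisfiable. -/
theorem taut3_iff {M ℓ : ℕ} (w : Idx M ℓ → Bool) : Taut3 w ↔ ¬ Sat3 w := by
  unfold Taut3 Sat3
  constructor
  · rintro h ⟨α, hα⟩
    obtain ⟨c, hc⟩ := h (fun v => !α v)
    obtain ⟨p, hp⟩ := hα c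
    have h1 := hc p
    rw [← hp] at h1
    simp at h1
  · intro h α
    by_contra hα
    push Not at hα
    apply h
    have key : ∀ a b : Bool, a ≠ b → (!a) = b := by decide
    refine ⟨fun v => !α v, fun c => ?_⟩
    obtain ⟨p, hp⟩ := hα c
    exact ⟨p, key _ _ hp⟩

/-- Abstract instances: the variables and the clauses are indexed by `Fin n ⊕ Y`. -/
private lemma embed {n M ℓ : ℕ} {Y : Type} [Fintype Y] (u : Y)
    (hM : n + Fintype.card Y ≤ M) (hℓ : n + Fintype.card Y ≤ 2 ^ ℓ)
    (N : Fin n ⊕ Y → Fin 3 → Fin n ⊕ Y) (s : Fin n ⊕ Y → Fin 3 → Bool) :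
    ∃ (e' : Fin n → Fin M) (b : Idx M ℓ → Bool), Function.Injective e' ∧
      ∀ x : Pt n, Sat3 (plug (fun i => (e' i, (0 : Fin 3), (none : Option (Fin ℓ)))) b x) ↔
        ∃ α : Fin n ⊕ Y → Bool,
        (∀ i : Fin n, ∃ q : Fin 3, α (N (Sum.inl i) q) = if q = 0 then x i else s (Sum.inl i) q) ∧
        (∀ y : Y, ∃ q : Fin 3, α (N (Sum.inr y) q) = s (Sum.inr y) q) := by
  classical
  have hc1 : Fintype.card (Fin n ⊕ Y) ≤ Fintype.card (Fin M) := by simpa using hM
  have hc2 : Fintype.card (Fin n ⊕ Y) ≤ Fintype.card (Fin ℓ → Bool) := by simpa using hℓ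
  obtain ⟨e⟩ := Function.Embedding.nonempty_of_card_le hc1
  obtain ⟨nm⟩ := Function.Embedding.nonempty_of_card_le hc2
  haveI : Nonempty (Fin n ⊕ Y) := ⟨Sum.inr u⟩
  obtain ⟨ie, hie, hie'⟩ : ∃ ie : Fin M → Fin n ⊕ Y, (∀ z, ie (e z) = z) ∧
      ∀ c, (∀ z, e z ≠ c) → ie c = Sum.inr u := by
    refine ⟨fun c => if h : ∃ z, e z = c then h.choose else Sum.inr u, ?_, ?_⟩
    · intro z
      have h : ∃ z', e z' = e z := ⟨z, rfl⟩
      simp only [dif_pos h]
      exact e.injective h.choose_spec
    · intro c hc
      have h : ¬ ∃ z', e z' = c := by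
        rintro ⟨z, hz⟩
        exact hc z hz
      simp only [dif_neg h]
  obtain ⟨P, hP⟩ : ∃ P : Fin n → Idx M ℓ, ∀ i, P i = (e (Sum.inl i), 0, none) :=
    ⟨fun i => (e (Sum.inl i), 0, none), fun i => rfl⟩
  obtain ⟨b, hb1, hb2⟩ : ∃ b : Idx M ℓ → Bool,
      (∀ c q j, b (c, q, some j) = nm (N (ie c) q) j) ∧
      (∀ c q, b (c, q, none) = s (ie c) q) :=
    ⟨fun v => match v with
      | (c, q, some j) => nm (N (ie c) q) j
      | (c, q, none) => s (ie c) q, fun _ _ _ => rfl, fun _ _ => rfl⟩
  have hp : Function.Injective P := by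
    intro i j hij
    rw [hP, hP] at hij
    have h1 := congrArg Prod.fst hij
    exact Sum.inl_injective (e.injective h1)
  refine ⟨fun i => e (Sum.inl i), b, fun i j hij => Sum.inl_injective (e.injective hij), ?_⟩
  have hPe : (fun i => (e (Sum.inl i), (0 : Fin 3), (none : Option (Fin ℓ)))) = P := by
    funext i
    exact (hP i).symm
  rw [hPe]
  intro x
  have hname : ∀ (c : Fin M) (q : Fin 3), (fun j => plug P b x (c, q, some j)) =
      nm (N (ie c) q) := by
    intro c q
    funext j
    rw [plug_other, hb1]
    intro i hi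
    rw [hP] at hi
    simp at hi
  have hs1 : ∀ i : Fin n, plug P b x (e (Sum.inl i), 0, none) = x i := by
    intro i
    rw [← hP i]
    exact plug_apply _ hp _ x i
  have hs2 : ∀ (c : Fin M) (q : Fin 3), (q ≠ 0 ∨ ∀ i : Fin n, e (Sum.inl i) ≠ c) →
      plug P b x (c, q, none) = s (ie c) q := by
    intro c q h
    rw [plug_other, hb2]
    intro i hi
    rw [hP] at hi
    simp only [Prod.mk.injEq] at hi
    rcases h with h | h
    · exact h hi.2.1.symm
    · exact h i hi.1
  unfold Sat3
  constructor
  · rintro ⟨α, hα⟩
    refine ⟨fun z => α (nm z), ?_, ?_⟩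
    · intro i
      obtain ⟨q, hq⟩ := hα (e (Sum.inl i))
      refine ⟨q, ?_⟩
      rw [hname, hie] at hq
      by_cases h0 : q = 0
      · subst h0
        rw [if_pos rfl, ← hs1 i]
        exact hq
      · rw [if_neg h0]
        rw [hs2 _ _ (Or.inl h0), hie] at hq
        exact hq
    · intro y
      obtain ⟨q, hq⟩ := hα (e (Sum.inr y))
      refine ⟨q, ?_⟩
      rw [hname, hs2 _ _ (Or.inr (fun i h => by simpa using e.injective h)), hie] at hq
      exact hq
  · rintro ⟨β, hβ1, hβ2⟩
    have hinv : ∀ z, β (Function.invFun nm (nm z)) = β z := by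
      intro z
      rw [Function.leftInverse_invFun nm.injective z]
    refine ⟨fun w => β (Function.invFun nm w), ?_⟩
    intro c
    by_cases hc : ∃ z, e z = c
    · obtain ⟨z, rfl⟩ := hc
      rcases z with i | y
      · obtain ⟨q, hq⟩ := hβ1 i
        refine ⟨q, ?_⟩
        rw [hname, hie]
        simp only
        rw [hinv, hq]
        by_cases h0 : q = 0
        · subst h0
          rw [if_pos rfl]
          exact (hs1 i).symm
        · rw [if_neg h0, hs2 _ _ (Or.inl h0), hie]
      · obtain ⟨q, hq⟩ := hβ2 y
        refine ⟨q, ?_⟩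
        rw [hname, hs2 _ _ (Or.inr (fun i h => by simpa using e.injective h)), hie]
        simp only
        rw [hinv, hq]
    · have hc' : ∀ z, e z ≠ c := fun z hz => hc ⟨z, hz⟩
      obtain ⟨q, hq⟩ := hβ2 u
      refine ⟨q, ?_⟩
      rw [hname, hs2 _ _ (Or.inr (fun i => hc' _)), hie' c hc']
      simp only
      rw [hinv, hq]

section

variable {n k : ℕ} (F : Finset (Finset (Fin n × Bool)))

/-- The auxiliary variables and clauses. -/
private abbrev Aux (k : ℕ) (F : Finset (Finset (Fin n × Bool))) : Type :=
  Bool ⊕ (Fin (F.card + 1) × Fin (k + 1))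

/-- The literals of the clause `j` of `F`, none if there is no such clause. -/
private noncomputable def cl (F : Finset (Finset (Fin n × Bool))) (j : ℕ) :
    List (Fin n × Bool) :=
  if h : j < F.toList.length then (F.toList[j]).toList else []

/-- The literals of the abstract instance: the variable `u = Sum.inr (Sum.inl false)` is false,
`z j = Sum.inr (Sum.inr (j, 0))`. The clauses are `v i = x i ∨ u`, `¬ u`, `z 0 ∨ u`,
`¬ z j ∨ z (j + 1) ∨ (literal q of the clause j is false)`, and `¬ z m`. -/
private noncomputable def lit (z : Fin n ⊕ Aux k F) (p : Fin 3) : (Fin n ⊕ Aux k F) × Bool :=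
  match z with
  | Sum.inl i => if p = 0 then (Sum.inl i, false) else (Sum.inr (Sum.inl false), true)
  | Sum.inr (Sum.inl false) => (Sum.inr (Sum.inl false), false)
  | Sum.inr (Sum.inl true) => (Sum.inr (Sum.inr (0, 0)), true)
  | Sum.inr (Sum.inr (j, q)) =>
    if j.val = F.card then (Sum.inr (Sum.inr (j, 0)), false)
    else if h : q.val < (cl F j.val).length then
      (if p = 0 then (Sum.inr (Sum.inr (j, 0)), false)
       else if p = 1 then (Sum.inr (Sum.inr (Fin.ofNat (F.card + 1) (j.val + 1), 0)), true)
       else (Sum.inl ((cl F j.val)[q.val]).1, !((cl F j.val)[q.val]).2))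
    else (Sum.inr (Sum.inl false), false)

private lemma cl_mem {F : Finset (Finset (Fin n × Bool))} {j : ℕ} (hj : j < F.card) :
    ∃ c ∈ F, cl F j = c.toList := by
  have h : j < F.toList.length := by rwa [Finset.length_toList]
  refine ⟨F.toList[j], Finset.mem_toList.1 (List.getElem_mem h), ?_⟩
  unfold cl
  rw [dif_pos h]

private lemma mem_cl {F : Finset (Finset (Fin n × Bool))} {c : Finset (Fin n × Bool)}
    (hc : c ∈ F) : ∃ j < F.card, cl F j = c.toList := by
  obtain ⟨j, hj, h⟩ := List.getElem_of_mem (Finset.mem_toList.2 hc)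
  refine ⟨j, by rwa [Finset.length_toList] at hj, ?_⟩
  unfold cl
  rw [dif_pos hj, h]

end

theorem reduction_t {n k M ℓ : ℕ} (F : Finset (Finset (Fin n × Bool))) (hF : ∀ c ∈ F, c.card ≤ k)
    (hM : n + 2 + (k + 1) * (F.card + 1) ≤ M) (hℓ : n + 2 + (k + 1) * (F.card + 1) ≤ 2 ^ ℓ) :
    ∃ (e : Fin n → Fin M) (b : Idx M ℓ → Bool), Function.Injective e ∧
      ∀ x : Pt n, Taut3 (plug (fun i => (e i, (0 : Fin 3), (none : Option (Fin ℓ)))) b x) ↔
        Models F x := by
  classical
  have hcard : n + Fintype.card (Aux k F) = n + 2 + (k + 1) * (F.card + 1) := by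
    simp only [Fintype.card_sum, Fintype.card_bool, Fintype.card_prod, Fintype.card_fin]
    ring
  obtain ⟨p, b, hp, h⟩ := embed (n := n) (M := M) (ℓ := ℓ) (Y := Aux k F) (Sum.inl false)
    (hcard.trans_le hM) (hcard.trans_le hℓ) (fun z q => (lit F z q).1) (fun z q => (lit F z q).2)
  refine ⟨p, b, hp, fun x => ?_⟩
  rw [taut3_iff, h x, not_iff_comm]
  constructor
  · -- a violated clause gives a satisfying assignment
    intro hviol
    unfold Models at hviol
    push Not at hviol
    obtain ⟨c, hc, hns⟩ := hviol
    have hfail : ∀ l ∈ c, x l.1 ≠ l.2 := by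
      intro l hl he
      exact hns ⟨l, hl, he⟩
    obtain ⟨j0, hj0, hcl⟩ := mem_cl hc
    refine ⟨fun z => match z with
      | Sum.inl i => x i
      | Sum.inr (Sum.inl _) => false
      | Sum.inr (Sum.inr (j, _)) => decide (j.val ≤ j0), ?_, ?_⟩
    · intro i
      exact ⟨0, by simp [lit]⟩
    · rintro (u | ⟨j, q⟩)
      · cases u
        · exact ⟨0, by simp [lit]⟩
        · exact ⟨0, by simp [lit]⟩
      · by_cases hjm : j.val = F.card
        · refine ⟨0, ?_⟩
          simp only [lit, if_pos hjm]
          rw [decide_eq_false_iff_not]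
          omega
        · by_cases hq : q.val < (cl F j.val).length
          · have hj1 : (Fin.ofNat (F.card + 1) (j.val + 1)).val = j.val + 1 := by
              simp only [Fin.ofNat]
              exact Nat.mod_eq_of_lt (by have := j.2; omega)
            rcases lt_trichotomy j.val j0 with hlt | heq | hgt
            · refine ⟨1, ?_⟩
              simp only [lit, if_neg hjm, dif_pos hq, one_ne_zero, if_false, if_true, hj1]
              rw [decide_eq_true_iff]
              omega
            · refine ⟨2, ?_⟩
              have h20 : (2 : Fin 3) ≠ 0 := by decide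
              have h21 : (2 : Fin 3) ≠ 1 := by decide
              simp only [lit, if_neg hjm, dif_pos hq, if_neg h20, if_neg h21]
              have hcl' : cl F j.val = c.toList := by rw [heq]; exact hcl
              have h3 : ∀ y, y ∈ cl F j.val → y ∈ c := by
                intro y hy
                rw [hcl'] at hy
                exact Finset.mem_toList.1 hy
              have hmem : (cl F j.val)[q.val] ∈ c := h3 _ (List.getElem_mem hq)
              have := hfail _ hmem
              revert this
              cases x (cl F j.val)[q.val].1 <;> cases (cl F j.val)[q.val].2 <;> simp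
            · refine ⟨0, ?_⟩
              simp only [lit, if_neg hjm, dif_pos hq, if_true]
              rw [decide_eq_false_iff_not]
              omega
          · exact ⟨0, by simp [lit, hjm, hq]⟩
  · -- a satisfying assignment gives a violated clause
    rintro ⟨α, h1, h2⟩ hmod
    have hu : α (Sum.inr (Sum.inl false)) = false := by
      obtain ⟨q, hq⟩ := h2 (Sum.inl false)
      simpa [lit] using hq
    have hv : ∀ i, α (Sum.inl i) = x i := by
      intro i
      obtain ⟨q, hq⟩ := h1 i
      by_cases h0 : q = 0
      · subst h0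
        simpa [lit] using hq
      · simp [lit, h0, hu] at hq
    have hz0 : α (Sum.inr (Sum.inr (0, 0))) = true := by
      obtain ⟨q, hq⟩ := h2 (Sum.inl true)
      simpa [lit] using hq
    have hzm : α (Sum.inr (Sum.inr (Fin.ofNat (F.card + 1) F.card, 0))) = false := by
      obtain ⟨q, hq⟩ := h2 (Sum.inr (Fin.ofNat (F.card + 1) F.card, 0))
      have hval : (Fin.ofNat (F.card + 1) F.card).val = F.card := by
        simp only [Fin.ofNat]
        exact Nat.mod_eq_of_lt (by omega)
      simp only [lit, if_pos hval] at hq
      exact hq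
    -- all `z j` are true
    have key : ∀ j : ℕ, j ≤ F.card → α (Sum.inr (Sum.inr (Fin.ofNat (F.card + 1) j, 0))) = true := by
      intro j
      induction j with
      | zero =>
        intro _
        have : (Fin.ofNat (F.card + 1) 0) = 0 := by
          apply Fin.ext
          simp
        rw [this]
        exact hz0
      | succ j ih =>
        intro hj
        have ih' := ih (by omega)
        obtain ⟨c, hc, hcl⟩ := cl_mem (F := F) (j := j) (by omega)
        obtain ⟨l, hl, hxl⟩ := hmod c hc
        have hl' : l ∈ cl F j := by rw [hcl]; exact Finset.mem_toList.2 hl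
        obtain ⟨q, hq, hlq⟩ := List.getElem_of_mem hl'
        have hlen : (cl F j).length ≤ k := by
          rw [hcl, Finset.length_toList]
          exact hF c hc
        have hofn : Fin.ofNat (F.card + 1) j = ⟨j, by omega⟩ := by
          apply Fin.ext
          simp only [Fin.ofNat]
          exact Nat.mod_eq_of_lt (by omega)
        rw [hofn] at ih'
        obtain ⟨r, hr⟩ := h2 (Sum.inr (⟨j, by omega⟩, ⟨q, by omega⟩))
        have hjm : j ≠ F.card := by omega
        by_cases hr0 : r = 0
        · exfalso
          subst hr0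
          simp only [lit, if_neg hjm, dif_pos hq, if_true] at hr
          rw [ih'] at hr
          exact absurd hr (by simp)
        · by_cases hr1 : r = 1
          · subst hr1
            simp only [lit, if_neg hjm, dif_pos hq, if_neg hr0, if_true] at hr
            exact hr
          · exfalso
            simp only [lit, if_neg hjm, dif_pos hq, if_neg hr0, if_neg hr1] at hr
            rw [hv, hlq, hxl] at hr
            revert hr
            cases l.2 <;> simp
    rw [key F.card le_rfl] at hzm
    exact absurd hzm (by simp)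

end Pool.Agent.H894R2.Taut
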