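import Mathlib
import Pool.Agent.H894R2.TautEmbed

/-!
# 3-DNF tautology is hard for nondeterministic branching programs with few rereads

Copied from `Pool.Agent.H554R2.Cnf.SatMain` with `Sat3` replaced by `Taut3`.
-/

set_option autoImplicit false

open Finset

namespace Pool.Agent.H894R2.Taut

open Pool.Agent.H554R2.Sem Pool.Agent.H554R2.Cnf Pool.Agent.H554R2.Compl

theorem taut3_perm {M ℓ : ℕ} (σ : Equiv.Perm (Fin M)) (w : Idx M ℓ → Bool) :
    Taut3 (fun v : Idx M ℓ => w (σ v.1, v.2)) ↔ Taut3 w := by
  rw [taut3_iff, taut3_iff, sat3_perm]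

/-- The bits of `x` may be the signs of the first literals of any `n` terms. -/
theorem reduction_set_t {n k M ℓ : ℕ} (F : Finset (Finset (Fin n × Bool)))
    (hF : ∀ c ∈ F, c.card ≤ k)
    (hM : n + 2 + (k + 1) * (F.card + 1) ≤ M) (hℓ : n + 2 + (k + 1) * (F.card + 1) ≤ 2 ^ ℓ)
    (a : Fin n → Fin M) (ha : Function.Injective a) :
    ∃ b : Idx M ℓ → Bool, ∀ x : Pt n, Taut3 (plug (fun i => sgn ℓ (a i)) b x) ↔ Models F x := by
  classical
  obtain ⟨e, b, he, hx⟩ := reduction_t (M := M) (ℓ := ℓ) F hF hM hℓ
  set τ : Equiv.Perm (Fin M) :=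
    ((Equiv.ofInjective e he).symm.trans (Equiv.ofInjective a ha)).extendSubtype with hτ
  have hτe : ∀ i, τ (e i) = a i := by
    intro i
    rw [hτ, Equiv.extendSubtype_apply_of_mem _ _ ⟨i, rfl⟩]
    have h1 : (⟨e i, ⟨i, rfl⟩⟩ : Set.range e) = Equiv.ofInjective e he i := rfl
    rw [Equiv.trans_apply, h1, Equiv.symm_apply_apply]
    rfl
  refine ⟨fun v => b (τ.symm v.1, v.2), fun x => ?_⟩
  rw [← hx x, ← taut3_perm τ.symm (plug (fun i => (e i, (0 : Fin 3), (none : Option (Fin ℓ)))) b x)]
  have : plug (fun i => sgn ℓ (a i)) (fun v => b (τ.symm v.1, v.2)) x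
      = fun v : Idx M ℓ => plug (fun i => (e i, (0 : Fin 3), (none : Option (Fin ℓ)))) b x
        (τ.symm v.1, v.2) := by
    funext v
    have hpa : Function.Injective (fun i => sgn ℓ (a i)) := fun i j h => ha (sgn_inj h)
    have hpe : Function.Injective
        (fun i => ((e i, (0 : Fin 3), (none : Option (Fin ℓ))) : Idx M ℓ)) :=
      fun i j h => he (congrArg Prod.fst h)
    by_cases h : ∃ i, sgn ℓ (a i) = v
    · obtain ⟨i, rfl⟩ := h
      have e1 := plug_apply (fun i => sgn ℓ (a i)) hpa (fun v => b (τ.symm v.1, v.2)) x i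
      have e2 := plug_apply (fun i => ((e i, (0 : Fin 3), (none : Option (Fin ℓ))) : Idx M ℓ))
        hpe b x i
      have e3 : τ.symm (a i) = e i := by rw [← hτe i, Equiv.symm_apply_apply]
      rw [e1]
      change _ = plug (fun i => ((e i, (0 : Fin 3), (none : Option (Fin ℓ))) : Idx M ℓ)) b x
        (τ.symm (a i), 0, none)
      rw [e3, e2]
    · push Not at h
      rw [plug_other _ _ _ _ h, plug_other]
      intro i hi
      apply h i
      have h1 : e i = τ.symm v.1 := congrArg Prod.fst hi
      have h2 : ((0 : Fin 3), (none : Option (Fin ℓ))) = v.2 := congrArg Prod.snd hi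
      have h3 : a i = v.1 := by rw [← hτe i, h1, Equiv.apply_symm_apply]
      exact Prod.ext h3 h2
  rw [this]

/-- 3-DNF tautology needs large programs, even if only the signs of the first literals of the terms
in a set `A` are queried few times, in one accepting computation on a small fraction of the
tautologies. -/
theorem tautStrong : ∃ D : ℕ, 0 < D ∧ ∀ (M ℓ : ℕ) (A : Finset (Fin M)), D * A.card ≤ M →
    D * A.card ≤ 2 ^ ℓ → ∀ P : NBP (Idx M ℓ),
    (∀ w l, P.Accepting w l → Taut3 w) →
    (∀ b, Nat.card {w // Agree A b w ∧ Taut3 w} ≤ 2 ^ (A.card / D) *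
      Nat.card {w // Agree A b w ∧ ∃ l, P.Accepting w l ∧ FastOn A (A.card / D) P l}) →
    2 ^ (A.card / D) ≤ Fintype.card P.State := by
  classical
  obtain ⟨k, C, n0, hkC⟩ := mainStrong
  refine ⟨10 ^ 50 + n0 + (k + 1) * (C + 1), by positivity, fun M ℓ A hM hℓ P hP hl => ?_⟩
  set D := 10 ^ 50 + n0 + (k + 1) * (C + 1) with hD
  have hD50 : 10 ^ 50 ≤ D := by omega
  have hDn0 : n0 ≤ D := by omega
  rcases Nat.eq_zero_or_pos (A.card / D) with h0 | h0
  · rw [h0]
    exact Fintype.card_pos_iff.2 ⟨P.start⟩
  · have h2 : D ≤ A.card := by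
      by_contra hlt
      rw [Nat.div_eq_of_lt (by omega)] at h0
      omega
    have h4 : A.card / D ≤ A.card / 10 ^ 8 :=
      Nat.div_le_div_left (le_trans (by norm_num) hD50) (by norm_num)
    obtain ⟨F, hF1, hF2, hF3⟩ := hkC A.card (hDn0.trans h2)
    have h5 : A.card + 2 + (k + 1) * (F.card + 1) ≤ D * A.card := by
      have h8 : 1 ≤ A.card := le_trans (le_trans (by norm_num) hD50) h2
      have h6 : (k + 1) * (F.card + 1) ≤ (k + 1) * ((C + 1) * A.card) := by
        refine Nat.mul_le_mul_left _ ?_
        have h10 : (C + 1) * A.card = C * A.card + A.card := by ring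
        omega
      have h7 : D * A.card = 10 ^ 50 * A.card + n0 * A.card + (k + 1) * ((C + 1) * A.card) := by
        rw [hD]; ring
      have h9 : 3 * A.card ≤ 10 ^ 50 * A.card := Nat.mul_le_mul_right _ (by norm_num)
      omega
    set a : Fin A.card → Fin M := fun i => A.orderEmbOfFin rfl i with ha
    have hainj : Function.Injective a := fun i j h => (A.orderEmbOfFin rfl).injective h
    have harange : ∀ c, c ∈ A ↔ ∃ i, a i = c := by
      intro c
      have h1 := Finset.range_orderEmbOfFin A (rfl : A.card = A.card)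
      have h2 : c ∈ Set.range (A.orderEmbOfFin rfl) ↔ c ∈ (A : Set (Fin M)) := by rw [h1]
      exact (h2.trans Finset.mem_coe).symm
    obtain ⟨b, hx⟩ := reduction_set_t (ℓ := ℓ) F hF2 (h5.trans hM) (h5.trans hℓ) a hainj
    have hp : Function.Injective (fun i => sgn ℓ (a i)) := fun i j h => hainj (sgn_inj h)
    have hcount : ∀ (l : List P.State) (i : Fin A.card),
        (l.filterMap (fun s => xvar ((toW (fun i => sgn ℓ (a i)) P).query s))).count i
        = (l.filterMap P.query).count (sgn ℓ (a i)) := fun l i => toW_count _ hp P l i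
    have hfast : ∀ x, (∃ l, P.Accepting (plug (fun i => sgn ℓ (a i)) b x) l ∧
        FastOn A (A.card / D) P l) →
        x ∈ fastPts (toW (fun i => sgn ℓ (a i)) P) b (A.card / 10 ^ 8) := by
      rintro x ⟨l, hacc, hl⟩
      unfold fastPts
      rw [mem_filter]
      refine ⟨mem_univ _, l, (toW_acc _ hp P b x l).2 hacc, ?_⟩
      rcases hl with h | h
      · left
        refine le_trans ?_ (h.trans h4)
        unfold reread
        refine Finset.card_le_card_of_injOn a ?_ (fun i _ j _ h => hainj h)
        intro i hi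
        simp only [coe_filter, mem_univ, true_and, Set.mem_ofPred_eq] at hi ⊢
        rw [hcount] at hi
        exact ⟨(harange _).2 ⟨i, rfl⟩, hi⟩
      · right
        have e1 : (l.filterMap (fun s => xvar ((toW (fun i => sgn ℓ (a i)) P).query s))).length
            = ∑ i, (l.filterMap (fun s => xvar ((toW (fun i => sgn ℓ (a i)) P).query s))).count i
            := by
          exact (length_eq_sum _).symm
        rw [e1]
        have e2 : ∑ i, (l.filterMap (fun s =>
            xvar ((toW (fun i => sgn ℓ (a i)) P).query s))).count i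
            = ∑ c ∈ A, (l.filterMap P.query).count (sgn ℓ c) := by
          refine Finset.sum_nbij a (fun i _ => (harange _).2 ⟨i, rfl⟩)
            (fun i _ j _ h => hainj h) ?_ (fun i _ => hcount l i)
          intro c hc
          obtain ⟨i, hi⟩ := (harange c).1 hc
          exact ⟨i, mem_coe.2 (mem_univ i), hi⟩
        rw [e2]
        omega
    have h9 := hF3 (Idx M ℓ) b (toW (fun i => sgn ℓ (a i)) P) (fun x l h => by
      rw [← hx x]
      exact hP _ l ((toW_acc _ hp P b x l).1 h)) (by
      have hlb := hl b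
      rw [card_agree A a hainj harange, card_agree A a hainj harange] at hlb
      have e3 : Nat.card {x // Models F x}
          = Nat.card {x // Taut3 (plug (fun i => sgn ℓ (a i)) b x)} :=
        Nat.card_congr (Equiv.subtypeEquivRight (fun x => (hx x).symm))
      rw [e3]
      refine hlb.trans ?_
      refine Nat.mul_le_mul (Nat.pow_le_pow_right (by norm_num) h4) ?_
      rw [Nat.card_eq_fintype_card, Fintype.card_subtype]
      refine card_le_card (fun x hx' => ?_)
      exact hfast x (mem_filter.1 hx').2)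
    exact (Nat.pow_le_pow_right (by norm_num) h4).trans h9

end Pool.Agent.H894R2.Taut
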